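import Pool.Agent.H12.Inst.EVC
import Pool.Agent.H11.Lv.RST
import Pool.Agent.H15.SM.BDA
import Pool.Agent.H7.UC.Bulk2

set_option autoImplicit false

/-! MP_2e6055, EVC in the other direction: `EV ≤ average` (helper12). -/

namespace Pool.Agent.H12.Inst

open Pool.Agent.H7.UC Pool.Agent.H74.Tri Pool.Agent.H75.Perc Pool.Agent.H75.Lv Pool.Agent.H93.SM

theorem inE_of_tip_exit {U : Finset Fc} {ω : Fc → Bool} {p : Pos} {n : ℕ}
    (hn : ExitAt U ω p n) : Ins U ω p n := hn.2.1

/-- the face ahead at the exit is not in `U` -/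
theorem ph_exit {U : Finset Fc} {ω : Fc → Bool} {p : Pos} {n : ℕ} (hn : ExitAt U ω p n) :
    ph (orb ω p n) ∉ U := by
  have h := hn.2.2
  rw [orb_succ] at h
  cases hp : ω (ph (orb ω p n))
  · obtain ⟨h2, h3⟩ := stp_white hp
    rw [← h3]
    exact h.2.2.1
  · obtain ⟨h2, h3⟩ := stp_black hp
    rw [← h2]
    exact h.2.1

/-- at the exit no component of the unexplored part has a tip -/
theorem no_tip_exit {U : Finset Fc} {ω : Fc → Bool} {p : Pos} {n : ℕ} (hS : St U ω)
    (hp : IsTip U ω p) (hn : ExitAt U ω p n) {z : Fc} (hz : z ∈ U) (hzn : z ∉ Rev ω p n) :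
    tipF (unx U ω p n z) ω = none := by
  cases h : tipF (unx U ω p n z) ω with
  | none => rfl
  | some s =>
    exfalso
    obtain ⟨q, hq, -⟩ := tipF_spec h
    have hz' : z ∈ U \ expl U ω p n := by
      rw [Finset.mem_sdiff, mem_expl]
      tauto
    have h2 := Pool.Agent.H11.Lv.int2' U ω hS p n hp hn (unx U ω p n z)
      (fun f hf => (unx_sub hf).1) (fun f hf => (unx_sub hf).2)
      (fun f hf g hg => comp_conn hz' hf hg) (by
        rintro f hf hfW ⟨g, hg, hfg⟩
        by_contra hr
        apply hfW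
        refine comp_adj (by exact_mod_cast hg) ?_ (adjF_symm hfg)
        rw [Finset.mem_sdiff, mem_expl]
        tauto) (pl q) (pr q) hq.2.1 hq.2.2.1
      ⟨ph q, by exact_mod_cast hq.1, adjF_symm (adj_hl q)⟩
      ⟨ph q, by exact_mod_cast hq.1, adjF_symm (adj_hr q)⟩
    rw [hq.2.2.2.1, hq.2.2.2.2] at h2
    exact absurd h2 (by simp)

/-- the value of the chain is at most `x`, if `x` is at least the value at the first stopped
component of the interface. -/
theorem R_le {z : Fc} {stop : Finset Fc → (Fc → Bool) → Prop} {G : Finset Fc → (Fc → Bool) → ℝ}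
    {U : Finset Fc} {ω : Fc → Bool} {p : Pos} (hS : St U ω) (hz : z ∈ U) (hp : IsTip U ω p)
    (hG : ∀ U' c, ¬ stop U' c → G U' c ≤ 0) {x : ℝ} (hx0 : 0 ≤ x)
    (hx : ∀ j, Ins U ω p j → z ∉ Rev ω p j → stop (unx U ω p j z) ω →
      (∀ j' < j, ¬ stop (unx U ω p j' z) ω) → G (unx U ω p j z) ω ≤ x) :
    R z stop G ω U.card U ≤ x := by
  obtain ⟨n, hn⟩ := Pool.Agent.H98.Tri.int1 U ω p hp
  -- downward induction
  have key : ∀ d j m, j + d = n → z ∉ Rev ω p j → St (unx U ω p j z) ω →
      (∀ j' < j, ¬ stop (unx U ω p j' z) ω) → (unx U ω p j z).card ≤ m →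
      R z stop G ω m (unx U ω p j z) ≤ x := by
    intro d
    induction d with
    | zero =>
      intro j m hj hzj hSj hns hm
      have : j = n := by omega
      subst this
      rw [R_none z stop G (no_tip_exit hS hp hn hz hzj)]
      by_cases h1 : stop (unx U ω p j z) ω
      · exact hx j hn.2.1 hzj h1 hns
      · exact (hG _ _ h1).trans hx0
    | succ d ih =>
      intro j m hj hzj hSj hns hm
      have hI : Ins U ω p j := ins_mono (by omega) hn.2.1
      have hzV : z ∈ unx U ω p j z := unx_self hz hzj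
      by_cases h1 : stop (unx U ω p j z) ω
      · rw [R_stop z stop G h1]
        exact hx j hI hzj h1 hns
      have hns' : ∀ j' < j + 1, ¬ stop (unx U ω p j' z) ω := by
        intro j' hj'
        rcases Nat.lt_or_ge j' j with h | h
        · exact hns j' h
        · have : j' = j := by omega
          rw [this]
          exact h1
      cases hT : tipF (unx U ω p j z) ω with
      | none =>
        rw [R_none z stop G hT]
        exact (hG _ _ h1).trans hx0
      | some s =>
        by_cases hs : ph (orb ω p j) ∈ unx U ω p j z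
        · have hT' := tip_of_mem hp hs
          have e : s = ph (orb ω p j) := by
            have := tipF_eq hSj hT'
            rw [hT] at this
            exact Option.some.inj this
          by_cases h2 : s = z
          · rw [h2] at hT
            rw [R_z z stop G hT]
            exact (hG _ _ h1).trans hx0
          · have hlt := comp_card_lt z hs
            cases m with
            | zero => omega
            | succ m =>
              rw [R_step z stop G hT h1 h2, e, ← unx_succ]
              have hne : z ≠ ph (orb ω p j) := fun h => h2 (by rw [e, h])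
              refine ih (j + 1) m (by omega) ?_ ?_ hns' ?_
              · rw [rev_succ]
                tauto
              · rw [unx_succ]
                cases hc : ω (ph (orb ω p j))
                · exact peel _ _ hSj _ hs (pr (orb ω p j)) hT'.2.2.1 (adj_hr _)
                    (by rw [hc, hT'.2.2.2.2]) z hzV hne
                · exact peel _ _ hSj _ hs (pl (orb ω p j)) hT'.2.1 (adj_hl _)
                    (by rw [hc, hT'.2.2.2.1]) z hzV hne
              · rw [unx_succ]
                omega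
        · have e : unx U ω p (j + 1) z = unx U ω p j z := by
            rw [unx_succ, Finset.sdiff_singleton_eq_erase, Finset.erase_eq_of_notMem hs]
            exact comp_idem _ _
          rw [← e]
          refine ih (j + 1) m (by omega) ?_ (by rw [e]; exact hSj) hns' (by rw [e]; exact hm)
          rw [rev_succ]
          rintro (h | h)
          · exact hzj h
          · exact hs (h ▸ hzV)
  have h0 := key n 0 U.card (by omega) (by
      rintro ⟨i, hi, h⟩
      have : i = 0 := by omega
      subst this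
      rw [orb_zero] at h
      rcases h with h | h
      · exact hp.2.1 (h ▸ hz)
      · exact hp.2.2.1 (h ▸ hz)) (by rw [unx_zero hS hp hz]; exact hS)
    (by intro j' hj'; omega) (by rw [unx_zero hS hp hz])
  rw [unx_zero hS hp hz] at h0
  exact h0

/-- **EVC, other direction**: `EV ≤ average of X`. -/
theorem evc_ge (U : Finset Fc) (col : Fc → Bool) (z : Fc) (p : Pos) (hS : St U col) (hz : z ∈ U)
    (hp : IsTip U col p) (stop : Finset Fc → (Fc → Bool) → Prop)
    (Gf : Finset Fc → (Fc → Bool) → ℝ) (hG : ∀ U' c, ¬ stop U' c → Gf U' c ≤ 0)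
    (hc : ∀ (U' : Finset Fc) (c c' : Fc → Bool), (∀ f, f ∉ U' → tch ↑U' f → c f = c' f) →
      ((stop U' c ↔ stop U' c') ∧ Gf U' c = Gf U' c'))
    (X : Finset Fc → ℝ) (hX : ∀ w ⊆ U, 0 ≤ X w ∧ ∀ j, Ins U (mixc U w col) p j →
      z ∉ Rev (mixc U w col) p j → stop (unx U (mixc U w col) p j z) (mixc U w col) →
      (∀ j' < j, ¬ stop (unx U (mixc U w col) p j' z) (mixc U w col)) →
      Gf (unx U (mixc U w col) p j z) (mixc U w col) ≤ X w) :
    EV z (fun U' c _ => stop U' c) (fun U' c _ => Gf U' c) U.card U col [] ≤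
      (∑ w ∈ U.powerset, X w) / 2 ^ U.card := by
  rw [EV_eq_av (z := z) (stop := stop) (G := Gf) hc]
  unfold av
  refine div_le_div_of_nonneg_right ?_ (by positivity)
  refine Finset.sum_le_sum fun w hw => ?_
  obtain ⟨h0, h1⟩ := hX w (Finset.mem_powerset.1 hw)
  exact R_le (St.congr_off hS fun f hf => (mixc_off hf).symm) hz
    ((agr_mixc U w col).symm.tip hp) hG h0 h1

/-- the index at which a revealed face has been asked -/
theorem ask_of_rev {U : Finset Fc} {ω : Fc → Bool} {p : Pos} (hp : IsTip U ω p) {j : ℕ}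
    (hI : Ins U ω p j) {g : Fc} (hg : g ∈ U) (hr : g ∈ Rev ω p j) :
    ∃ k < j, Ask U ω p k g := by
  induction j with
  | zero =>
    obtain ⟨i, hi, h⟩ := hr
    have : i = 0 := by omega
    subst this
    rw [orb_zero] at h
    rcases h with h | h
    · exact absurd (h ▸ hg) hp.2.1
    · exact absurd (h ▸ hg) hp.2.2.1
  | succ j ih =>
    by_cases h : g ∈ Rev ω p j
    · obtain ⟨k, hk, hA⟩ := ih (ins_mono (by omega) hI) h
      exact ⟨k, by omega, hA⟩
    · have h1 := (rev_succ ω p j g).1 hr
      exact ⟨j, by omega, ins_mono (by omega) hI, (h1.resolve_left h).symm, hg, h⟩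

/-- a connected set `S ∋ z` of faces of `U`, not contained in the unexplored component of `z`:
a face of `S` has been asked -/
theorem ask_of_not_sub {U : Finset Fc} {ω : Fc → Bool} {p : Pos} (hp : IsTip U ω p) {j : ℕ}
    (hI : Ins U ω p j) {z : Fc} {S : Finset Fc} (hSU : S ⊆ U) (hz : z ∈ S)
    (hzj : z ∉ Rev ω p j) (hc : ∀ f ∈ S, Jn (↑S : Set Fc) z f) (h : ¬ S ⊆ unx U ω p j z) :
    ∃ g ∈ S, ∃ k < j, Ask U ω p k g := by
  obtain ⟨f, hf, hfn⟩ := Finset.not_subset.1 h
  obtain ⟨a, b, -, h2, h3, h4, h5, -⟩ := (hc f hf).exit (A := ↑(unx U ω p j z))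
    (by exact_mod_cast unx_self (hSU hz) hzj) (by exact_mod_cast hfn)
  have hbS : b ∈ S := by exact_mod_cast h3
  refine ⟨b, hbS, ask_of_rev hp hI (hSU hbS) ?_⟩
  by_contra hr
  apply h4
  have : b ∈ unx U ω p j z := by
    refine comp_adj (by exact_mod_cast h2) ?_ h5
    rw [Finset.mem_sdiff, mem_expl]
    exact ⟨hSU hbS, fun h => hr h.2⟩
  exact_mod_cast this

/-- the box is connected -/
theorem Bx_conn (z : Fc) (s : ℤ) : ∀ f ∈ Bx z s, Jn (↑(Bx z s) : Set Fc) z f := by
  have key : ∀ n : ℕ, ∀ f ∈ Bx z s, (f.1 - z.1).natAbs + (f.2 - z.2).natAbs = n →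
      Jn (↑(Bx z s) : Set Fc) z f := by
    intro n
    induction n with
    | zero =>
      intro f hf h
      have h1 : f = z := by
        apply Prod.ext <;> omega
      rw [h1]
      exact Jn.refl _
    | succ n ih =>
      intro f hf h
      have hf' := mem_Bx.1 hf
      rw [abs_le, abs_le] at hf'
      have step : ∀ g : Fc, g ∈ Bx z s → (g.1 - z.1).natAbs + (g.2 - z.2).natAbs = n →
          adjF g f → Jn (↑(Bx z s) : Set Fc) z f := fun g hg h1 h2 =>
        (ih g hg h1).step (by exact_mod_cast hf) h2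
      have hB : ∀ a b : ℤ, |a - z.1| ≤ s → |b - z.2| ≤ s → ((a, b) : Fc) ∈ Bx z s :=
        fun a b h1 h2 => mem_Bx.2 ⟨h1, h2⟩
      rcases lt_trichotomy f.1 z.1 with h1 | h1 | h1
      · refine step (f.1 + 1, f.2) (hB _ _ ?_ ?_) (by simp only; omega)
          ((adjF_iff _ _).2 (by simp))
        · rw [abs_le]; constructor <;> omega
        · rw [abs_le]; constructor <;> omega
      · rcases lt_trichotomy f.2 z.2 with h2 | h2 | h2
        · refine step (f.1, f.2 + 1) (hB _ _ ?_ ?_) (by simp only; omega)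
            ((adjF_iff _ _).2 (by simp))
          · rw [abs_le]; constructor <;> omega
          · rw [abs_le]; constructor <;> omega
        · omega
        · refine step (f.1, f.2 - 1) (hB _ _ ?_ ?_) (by simp only; omega)
            ((adjF_iff _ _).2 (by simp))
          · rw [abs_le]; constructor <;> omega
          · rw [abs_le]; constructor <;> omega
      · refine step (f.1 - 1, f.2) (hB _ _ ?_ ?_) (by simp only; omega)
          ((adjF_iff _ _).2 (by simp))
        · rw [abs_le]; constructor <;> omega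
        · rw [abs_le]; constructor <;> omega
  intro f hf
  exact key _ f hf rfl

open Classical in
/-- the visibility of the box is at least the probability that the chain has a small distance -/
theorem vis_ge (U : Finset Fc) (col : Fc → Bool) (z : Fc) (p : Pos) (hS : St U col)
    (hp : IsTip U col p) (s : ℤ) (hs : 0 ≤ s) (hBU : Bx z s ⊆ U) (r : ℝ)
    (hr : ∀ V : Finset Fc, Bx z s ⊆ V → r ≤ dst V z) :
    EV z (fun U' _ _ => dst U' z < r) (fun U' _ _ => if dst U' z < r then 1 else 0)
      U.card U col [] ≤ vis U col (Bx z s) := by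
  have hzB : z ∈ Bx z s := mem_Bx.2 (by simp [hs])
  have h := evc_ge U col z p hS (hBU hzB) hp (fun U' _ => dst U' z < r)
    (fun U' _ => if dst U' z < r then 1 else 0) (by
      intro U' c h
      exact (if_neg h).le) (by
      intro U' c c' _
      exact ⟨Iff.rfl, rfl⟩)
    (fun w => if (∃ p i f, IsTip U col p ∧ f ∈ Bx z s ∧ Ask U (mixc U w col) p i f) then 1 else 0)
    (by
      intro w hw
      refine ⟨by split_ifs <;> norm_num, ?_⟩
      intro j hI hzj hst _
      have hp' : IsTip U (mixc U w col) p := (agr_mixc U w col).symm.tip hp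
      have h1 : ¬ Bx z s ⊆ unx U (mixc U w col) p j z := fun h => absurd hst (not_lt.2 (hr _ h))
      obtain ⟨g, hg, k, -, hA⟩ := ask_of_not_sub hp' hI hBU hzB hzj (Bx_conn z s) h1
      have h2 : (∃ p i f, IsTip U col p ∧ f ∈ Bx z s ∧ Ask U (mixc U w col) p i f) :=
        ⟨p, k, g, hp, hg, hA⟩
      rw [if_pos h2]
      split_ifs <;> norm_num)
  refine h.trans (le_of_eq ?_)
  unfold vis
  rw [Pr_eq, Finset.sum_boole]

/-- the distance of the face `z` to the complement, if the box is inside -/
theorem dst_ge_box {V : Finset Fc} {z : Fc} {s : ℤ} (hs : 4 ≤ s) (h : Bx z s ⊆ V) :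
    (s : ℝ) / 2 ≤ dst V z := by
  obtain ⟨b, hb, hd⟩ := Pool.Agent.H15.SM.exists_dst V z
  rw [← hd]
  obtain ⟨g, hbg, hgV⟩ : ∃ g, b ∈ cell g ∧ g ∉ V := by
    by_contra hcon
    push Not at hcon
    exact hb (Pool.Agent.H11.UC.mem_reg.2 hcon)
  have hgB : g ∉ Bx z s := fun h1 => hgV (h h1)
  have h1 := Pool.Agent.H15.SM.norm_ctr_le hbg
  set u : ℝ := (g.1 : ℝ) - z.1 with hu
  set v : ℝ := (g.2 : ℝ) - z.2 with hv
  have h2 : ‖ctr g - ctr z‖ ^ 2 = u ^ 2 + u * v + v ^ 2 := by
    rw [← normSq_lat]
    congr 2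
    unfold ctr
    rw [hu, hv]
    push_cast
    ring
  have h3 : ((s : ℝ) + 1) ^ 2 ≤ u ^ 2 ∨ ((s : ℝ) + 1) ^ 2 ≤ v ^ 2 := by
    rw [mem_Bx, not_and_or] at hgB
    have hs0 : (0 : ℝ) ≤ (s : ℝ) + 1 := by
      have : (4 : ℝ) ≤ s := by exact_mod_cast hs
      linarith
    rcases hgB with h3 | h3
    · left
      rw [not_le] at h3
      have h4 : s + 1 ≤ |g.1 - z.1| := h3
      have h5 : (s : ℝ) + 1 ≤ |u| := by
        rw [hu]
        exact_mod_cast h4
      rw [← sq_abs u]
      exact pow_le_pow_left₀ hs0 h5 2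
    · right
      rw [not_le] at h3
      have h4 : s + 1 ≤ |g.2 - z.2| := h3
      have h5 : (s : ℝ) + 1 ≤ |v| := by
        rw [hv]
        exact_mod_cast h4
      rw [← sq_abs v]
      exact pow_le_pow_left₀ hs0 h5 2
  have h4 : 3 / 4 * ((s : ℝ) + 1) ^ 2 ≤ ‖ctr g - ctr z‖ ^ 2 := by
    rw [h2]
    rcases h3 with h3 | h3
    · nlinarith [sq_nonneg (v + u / 2)]
    · nlinarith [sq_nonneg (u + v / 2)]
  have hs4 : (4 : ℝ) ≤ s := by exact_mod_cast hs
  have h5 : (s : ℝ) / 2 + 2 ≤ ‖ctr g - ctr z‖ := by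
    refine le_of_sq_le_sq ?_ (norm_nonneg _)
    nlinarith
  have h6 : ‖ctr g - ctr z‖ ≤ ‖b - ctr g‖ + ‖b - ctr z‖ := by
    have : ctr g - ctr z = (b - ctr z) - (b - ctr g) := by ring
    rw [this]
    linarith [norm_sub_le (b - ctr z) (b - ctr g)]
  linarith

/-- `CEN` to `vis`: the probability that the distance becomes less than `s / 2` is at most the
visibility of the box `Bx z s`. -/
theorem vis_ge' (U : Finset Fc) (col : Fc → Bool) (z : Fc) (p : Pos) (hS : St U col)
    (hp : IsTip U col p) (s : ℤ) (hs : 4 ≤ s) (hBU : Bx z s ⊆ U) (r : ℝ) (hr : r ≤ (s : ℝ) / 2) :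
    EV z (fun U' _ _ => dst U' z < r) (fun U' _ _ => by
      classical exact if dst U' z < r then 1 else 0) U.card U col [] ≤ vis U col (Bx z s) :=
  vis_ge U col z p hS hp s (by omega) hBU r fun _ h => hr.trans (dst_ge_box hs h)

end Pool.Agent.H12.Inst
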