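import Pool.Agent.H75.Lv.Lev
import Pool.Agent.H74.Tri.Peel
import Pool.Agent.H98.Tri.Int
import Pool.Agent.H93.SM.Ev

set_option autoImplicit false

/-! MP_2e6055, EVC: from the interface of a state `U` to the `z`-chain `EV` (helper12). -/

namespace Pool.Agent.H12.Inst

open Pool.Agent.H7.UC Pool.Agent.H74.Tri Pool.Agent.H75.Lv Pool.Agent.H93.SM

/-- agreement of two colourings on the faces off `U` next to `U` -/
def Agr (U : Finset Fc) (c c' : Fc → Bool) : Prop := ∀ f, f ∉ U → tch ↑U f → c f = c' f

theorem Agr.symm {U : Finset Fc} {c c' : Fc → Bool} (h : Agr U c c') : Agr U c' c :=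
  fun f h1 h2 => (h f h1 h2).symm

theorem Agr.tip {U : Finset Fc} {c c' : Fc → Bool} (h : Agr U c c') {p : Pos}
    (hp : IsTip U c p) : IsTip U c' p := by
  obtain ⟨h1, h2, h3, h4, h5⟩ := hp
  refine ⟨h1, h2, h3, ?_, ?_⟩
  · rw [← h _ h2 ⟨ph p, by exact_mod_cast h1, adjF_symm (adj_hl p)⟩]
    exact h4
  · rw [← h _ h3 ⟨ph p, by exact_mod_cast h1, adjF_symm (adj_hr p)⟩]
    exact h5

open Classical in
/-- the face ahead of a chosen position -/
noncomputable def pick (P : Pos → Prop) : Option Fc :=
  if h : ∃ p, P p then some (ph h.choose) else none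

theorem tipF_pick (U : Finset Fc) (c : Fc → Bool) : tipF U c = pick (IsTip U c) := rfl

theorem tipF_congr {U : Finset Fc} {c c' : Fc → Bool} (h : Agr U c c') : tipF U c = tipF U c' := by
  have e : IsTip U c = IsTip U c' := funext fun p => propext ⟨h.tip, h.symm.tip⟩
  rw [tipF_pick, tipF_pick, e]

theorem tipF_eq {U : Finset Fc} {c : Fc → Bool} (hS : St U c) {p : Pos} (hp : IsTip U c p) :
    tipF U c = some (ph p) := by
  cases h : tipF U c with
  | none =>
    rw [tipF_pick] at h
    unfold pick at h
    rw [dif_pos ⟨p, hp⟩] at h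
    exact absurd h (by simp)
  | some s =>
    obtain ⟨q, hq, rfl⟩ := tipF_spec h
    rw [Pool.Agent.H98.Tri.tipU U c hS q p hq hp]

/-! ### the chain along the true colours -/

variable (z : Fc) (stop : Finset Fc → (Fc → Bool) → Prop) (G : Finset Fc → (Fc → Bool) → ℝ)

/-- the value at the end of the `z`-chain which follows the colouring `ω` -/
noncomputable def R (ω : Fc → Bool) : ℕ → Finset Fc → ℝ
  | 0, U => G U ω
  | n + 1, U => by
      classical exact
        match tipF U ω with
        | none => G U ω
        | some s => if stop U ω ∨ s = z then G U ω else R ω n (comp (U \ {s}) z)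

theorem R_zero (ω : Fc → Bool) (U : Finset Fc) : R z stop G ω 0 U = G U ω := rfl

theorem R_none {ω : Fc → Bool} {n : ℕ} {U : Finset Fc} (h : tipF U ω = none) :
    R z stop G ω n U = G U ω := by
  cases n with
  | zero => rfl
  | succ n =>
    unfold R
    rw [h]

theorem R_stop {ω : Fc → Bool} {n : ℕ} {U : Finset Fc} (h : stop U ω) :
    R z stop G ω n U = G U ω := by
  cases n with
  | zero => rfl
  | succ n =>
    unfold R
    cases hT : tipF U ω with
    | none => rfl
    | some s =>
      simp only
      rw [if_pos (Or.inl h)]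

theorem R_z {ω : Fc → Bool} {n : ℕ} {U : Finset Fc} (h : tipF U ω = some z) :
    R z stop G ω n U = G U ω := by
  cases n with
  | zero => rfl
  | succ n =>
    unfold R
    rw [h]
    simp

theorem R_step {ω : Fc → Bool} {n : ℕ} {U : Finset Fc} {s : Fc} (h : tipF U ω = some s)
    (h1 : ¬ stop U ω) (h2 : s ≠ z) :
    R z stop G ω (n + 1) U = R z stop G ω n (comp (U \ {s}) z) := by
  conv_lhs => unfold R
  rw [h]
  simp only
  rw [if_neg (by tauto)]

theorem R_nonneg (hG : ∀ U c, 0 ≤ G U c) (ω : Fc → Bool) : ∀ (n : ℕ) (U : Finset Fc),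
    0 ≤ R z stop G ω n U := by
  intro n
  induction n with
  | zero => intro U; exact hG _ _
  | succ n ih =>
    intro U
    cases hT : tipF U ω with
    | none => rw [R_none z stop G hT]; exact hG _ _
    | some s =>
      by_cases h1 : stop U ω
      · rw [R_stop z stop G h1]; exact hG _ _
      · by_cases h2 : s = z
        · subst h2
          rw [R_z s stop G hT]; exact hG _ _
        · rw [R_step z stop G hT h1 h2]
          exact ih _

/-- agreement on `U` and next to `U` -/
def AgrI (U : Finset Fc) (c c' : Fc → Bool) : Prop := ∀ f, f ∈ U ∨ tch ↑U f → c f = c' f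

theorem AgrI.agr {U : Finset Fc} {c c' : Fc → Bool} (h : AgrI U c c') : Agr U c c' :=
  fun f _ h2 => h f (Or.inr h2)

theorem AgrI.mono {U V : Finset Fc} {c c' : Fc → Bool} (h : AgrI U c c') (hV : V ⊆ U) :
    AgrI V c c' := by
  rintro f (h1 | ⟨g, h1, h2⟩)
  · exact h f (Or.inl (hV h1))
  · exact h f (Or.inr ⟨g, by exact_mod_cast hV (by exact_mod_cast h1), h2⟩)

variable {z stop G}

theorem R_congr (hc : ∀ U' c c', Agr U' c c' → ((stop U' c ↔ stop U' c') ∧ G U' c = G U' c'))
    {ω ω' : Fc → Bool} : ∀ (n : ℕ) (U : Finset Fc), AgrI U ω ω' →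
    R z stop G ω n U = R z stop G ω' n U := by
  intro n
  induction n with
  | zero => intro U h; exact (hc U ω ω' h.agr).2
  | succ n ih =>
    intro U h
    obtain ⟨h1, h2⟩ := hc U ω ω' h.agr
    have hT := tipF_congr h.agr
    cases hT' : tipF U ω with
    | none => rw [R_none z stop G hT', R_none z stop G (hT ▸ hT'), h2]
    | some s =>
      have hT'' : tipF U ω' = some s := by rw [← hT, hT']
      by_cases h3 : stop U ω
      · rw [R_stop z stop G h3, R_stop z stop G (h1.1 h3), h2]
      · by_cases h4 : s = z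
        · subst h4
          rw [R_z s stop G hT', R_z s stop G hT'', h2]
        · rw [R_step z stop G hT' h3 h4, R_step z stop G hT'' (fun h => h3 (h1.2 h)) h4]
          exact ih _ (h.mono ((comp_sub _ _).trans Finset.sdiff_subset))

/-! ### averages -/

/-- average over the subsets of `U` -/
noncomputable def av (U : Finset Fc) (F : Finset Fc → ℝ) : ℝ :=
  (∑ w ∈ U.powerset, F w) / 2 ^ U.card

theorem av_const (U : Finset Fc) (c : ℝ) : av U (fun _ => c) = c := by
  unfold av
  rw [Finset.sum_const, Finset.card_powerset, nsmul_eq_mul]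
  push_cast
  field_simp

theorem av_congr {U : Finset Fc} {F F' : Finset Fc → ℝ} (h : ∀ w ⊆ U, F w = F' w) :
    av U F = av U F' := by
  unfold av
  rw [Finset.sum_congr rfl fun w hw => h w (Finset.mem_powerset.1 hw)]

theorem av_insert {S : Finset Fc} {s : Fc} (hs : s ∉ S) (F : Finset Fc → ℝ) :
    av (insert s S) F = (av S (fun w => F (insert s w)) + av S F) / 2 := by
  unfold av
  rw [Finset.sum_powerset_insert hs, Finset.card_insert_of_notMem hs, pow_succ]
  field_simp
  ring

theorem av_local {S U : Finset Fc} (hU : U ⊆ S) (Φ : Finset Fc → ℝ) :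
    av S (fun w => Φ (w ∩ U)) = av U Φ := by
  have key : ∀ T : Finset Fc, (∀ a ∈ T, a ∉ U) → av (U ∪ T) (fun w => Φ (w ∩ U)) = av U Φ := by
    intro T
    induction T using Finset.induction_on with
    | empty =>
      intro _
      rw [Finset.union_empty]
      refine av_congr fun w hw => ?_
      rw [Finset.inter_eq_left.2 hw]
    | insert a T ha ih =>
      intro h
      have haU : a ∉ U := h a (Finset.mem_insert_self _ _)
      have h1 : a ∉ U ∪ T := by
        rw [Finset.mem_union]
        tauto
      rw [Finset.union_insert, av_insert h1, ih fun b hb => h b (Finset.mem_insert_of_mem hb)]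
      have h2 : av (U ∪ T) (fun w => Φ (insert a w ∩ U)) = av U Φ := by
        rw [← ih fun b hb => h b (Finset.mem_insert_of_mem hb)]
        refine av_congr fun w _ => ?_
        rw [Finset.insert_inter_of_notMem haU]
      rw [h2]
      ring
  have h1 : U ∪ (S \ U) = S := Finset.union_sdiff_of_subset hU
  have h2 := key (S \ U) fun a ha => (Finset.mem_sdiff.1 ha).2
  rw [h1] at h2
  exact h2

theorem mixc_off {U w : Finset Fc} {col : Fc → Bool} {f : Fc} (h : f ∉ U) :
    mixc U w col f = col f := by
  unfold mixc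
  rw [if_neg h]

theorem mixc_on {U w : Finset Fc} {col : Fc → Bool} {f : Fc} (h : f ∈ U) :
    mixc U w col f = decide (f ∈ w) := by
  unfold mixc
  rw [if_pos h]

theorem agr_mixc (U w : Finset Fc) (col : Fc → Bool) : Agr U (mixc U w col) col :=
  fun _ h _ => mixc_off h

/-- the chain is the average of the chains along the true colours -/
theorem EV_eq_av (hc : ∀ U' c c', Agr U' c c' → ((stop U' c ↔ stop U' c') ∧ G U' c = G U' c')) :
    ∀ (n : ℕ) (U : Finset Fc) (col : Fc → Bool) (hi : List Bool),
    EV z (fun U' c _ => stop U' c) (fun U' c _ => G U' c) n U col hi =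
      av U (fun w => R z stop G (mixc U w col) n U) := by
  intro n
  induction n with
  | zero =>
    intro U col hi
    rw [EV_zero, ← av_const U (G U col)]
    refine av_congr fun w _ => ?_
    rw [R_zero, (hc U _ _ (agr_mixc U w col)).2]
  | succ n ih =>
    intro U col hi
    have hT : ∀ w, tipF U (mixc U w col) = tipF U col := fun w => tipF_congr (agr_mixc U w col)
    have hS : ∀ w, (stop U (mixc U w col) ↔ stop U col) := fun w => (hc U _ _ (agr_mixc U w col)).1
    have hGc : ∀ w, G U (mixc U w col) = G U col := fun w => (hc U _ _ (agr_mixc U w col)).2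
    cases hT' : tipF U col with
    | none =>
      rw [EV_none hT', ← av_const U (G U col)]
      refine av_congr fun w _ => ?_
      rw [R_none z stop G ((hT w).trans hT'), hGc]
    | some s =>
      by_cases h1 : stop U col
      · rw [EV_stop hT' (Or.inl h1), ← av_const U (G U col)]
        refine av_congr fun w _ => ?_
        rw [R_stop z stop G ((hS w).2 h1), hGc]
      · by_cases h2 : s = z
        · rw [EV_stop hT' (Or.inr h2), ← av_const U (G U col)]
          refine av_congr fun w _ => ?_
          rw [R_z z stop G (((hT w).trans hT').trans (by rw [h2])), hGc]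
        · rw [EV_step hT' h1 h2, ih, ih]
          have hsU : s ∈ U := tipF_mem hT'
          set S := U \ {s} with hSdef
          have hsS : s ∉ S := by simp [hSdef]
          have hUS : U = insert s S := by
            rw [hSdef, Finset.sdiff_singleton_eq_erase, Finset.insert_erase hsU]
          set V := comp S z with hV
          have hVS : V ⊆ S := comp_sub _ _
          have hsV : s ∉ V := fun h => hsS (hVS h)
          have e1 : av U (fun w => R z stop G (mixc U w col) (n + 1) U) =
              av U (fun w => R z stop G (mixc U w col) n V) := by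
            refine av_congr fun w _ => ?_
            rw [R_step z stop G ((hT w).trans hT') (fun h => h1 ((hS w).1 h)) h2]
          have e2 : av U (fun w => R z stop G (mixc U w col) n V) =
              (av S (fun w => R z stop G (mixc U (insert s w) col) n V) +
                av S (fun w => R z stop G (mixc U w col) n V)) / 2 := by
            conv_lhs => rw [hUS]
            rw [av_insert hsS, ← hUS]
          have hnb : ∀ f, f ∉ V → tch ↑V f → f ≠ s → f ∉ U := by
            rintro f hf ⟨g, hg, hfg⟩ hfs hfU
            apply hf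
            refine comp_adj (by exact_mod_cast hg) ?_ (adjF_symm hfg)
            rw [hSdef, Finset.mem_sdiff, Finset.mem_singleton]
            exact ⟨hfU, hfs⟩
          have e3 : av S (fun w => R z stop G (mixc U (insert s w) col) n V) =
              av V (fun w => R z stop G (mixc V w (Function.update col s true)) n V) := by
            rw [← av_local hVS]
            refine av_congr fun w _ => ?_
            refine R_congr hc n V ?_
            rintro f hf
            by_cases hfV : f ∈ V
            · have hfS := hVS hfV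
              have hfU : f ∈ U := (Finset.mem_sdiff.1 hfS).1
              have hfs : f ≠ s := fun h => hsV (h ▸ hfV)
              rw [mixc_on hfU, mixc_on hfV]
              simp [hfs, hfV]
            · have ht : tch ↑V f := hf.resolve_left hfV
              rw [mixc_off hfV]
              by_cases hfs : f = s
              · subst hfs
                rw [mixc_on hsU]
                simp
              · rw [mixc_off (hnb f hfV ht hfs), Function.update_of_ne hfs]
          have e4 : av S (fun w => R z stop G (mixc U w col) n V) =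
              av V (fun w => R z stop G (mixc V w (Function.update col s false)) n V) := by
            rw [← av_local hVS]
            refine av_congr fun w hw => ?_
            refine R_congr hc n V ?_
            rintro f hf
            by_cases hfV : f ∈ V
            · have hfS := hVS hfV
              have hfU : f ∈ U := (Finset.mem_sdiff.1 hfS).1
              rw [mixc_on hfU, mixc_on hfV]
              simp [hfV]
            · have ht : tch ↑V f := hf.resolve_left hfV
              rw [mixc_off hfV]
              by_cases hfs : f = s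
              · subst hfs
                have hfw : f ∉ w := fun h => hsS (hw h)
                rw [mixc_on hsU]
                simp [hfw]
              · rw [mixc_off (hnb f hfV ht hfs), Function.update_of_ne hfs]
          rw [e1, e2, e3, e4]

/-! ### components and revealed faces -/

theorem comp_comp_sdiff (W : Finset Fc) (z s : Fc) :
    comp (W \ {s}) z = comp (comp W z \ {s}) z := by
  apply Finset.Subset.antisymm
  · intro f hf
    have hsub : comp (W \ {s}) z ⊆ comp W z \ {s} := by
      intro g hg
      rw [Finset.mem_sdiff]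
      exact ⟨comp_mono Finset.sdiff_subset z hg, (Finset.mem_sdiff.1 (comp_sub _ _ hg)).2⟩
    rw [mem_comp]
    exact ⟨hsub hf, (comp_jn hf).mono (by exact_mod_cast hsub)⟩
  · intro f hf
    exact comp_mono (Finset.sdiff_subset_sdiff (comp_sub _ _) (Finset.Subset.refl _)) z hf

theorem comp_idem (W : Finset Fc) (z : Fc) : comp (comp W z) z = comp W z := by
  apply Finset.Subset.antisymm (comp_sub _ _)
  intro f hf
  exact mem_comp.2 ⟨hf, comp_jn hf⟩

theorem rev_succ (ω : Fc → Bool) (p : Pos) (j : ℕ) (f : Fc) :
    f ∈ Rev ω p (j + 1) ↔ f ∈ Rev ω p j ∨ f = ph (orb ω p j) := by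
  constructor
  · rintro ⟨i, hi, h⟩
    rcases Nat.lt_or_ge i (j + 1) with h1 | h1
    · exact Or.inl ⟨i, by omega, h⟩
    · have : i = j + 1 := by omega
      subst this
      rw [orb_succ] at h
      cases hp : ω (ph (orb ω p j))
      · obtain ⟨h2, h3⟩ := stp_white hp
        rw [h2, h3] at h
        rcases h with h | h
        · exact Or.inl ⟨j, le_rfl, Or.inl h⟩
        · exact Or.inr h
      · obtain ⟨h2, h3⟩ := stp_black hp
        rw [h2, h3] at h
        rcases h with h | h
        · exact Or.inr h
        · exact Or.inl ⟨j, le_rfl, Or.inr h⟩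
  · rintro (⟨i, hi, h⟩ | h)
    · exact ⟨i, by omega, h⟩
    · refine ⟨j + 1, le_rfl, ?_⟩
      rw [orb_succ]
      cases hp : ω (ph (orb ω p j))
      · obtain ⟨h2, h3⟩ := stp_white hp
        rw [h2, h3]
        exact Or.inr h
      · obtain ⟨h2, h3⟩ := stp_black hp
        rw [h2, h3]
        exact Or.inl h

theorem rev_mono {ω : Fc → Bool} {p : Pos} {i j : ℕ} (h : i ≤ j) {f : Fc} (hf : f ∈ Rev ω p i) :
    f ∈ Rev ω p j := by
  obtain ⟨k, hk, h1⟩ := hf
  exact ⟨k, hk.trans h, h1⟩

theorem ins_mono {U : Finset Fc} {ω : Fc → Bool} {p : Pos} {i j : ℕ} (h : i ≤ j)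
    (hf : Ins U ω p j) : Ins U ω p i := fun k h1 h2 => hf k h1 (h2.trans h)

theorem unx_succ (U : Finset Fc) (ω : Fc → Bool) (p : Pos) (j : ℕ) (z : Fc) :
    unx U ω p (j + 1) z = comp (unx U ω p j z \ {ph (orb ω p j)}) z := by
  unfold unx
  rw [← comp_comp_sdiff]
  congr 1
  ext f
  rw [Finset.mem_sdiff, Finset.mem_sdiff, Finset.mem_sdiff, mem_expl, mem_expl, rev_succ,
    Finset.mem_singleton]
  tauto

theorem unx_sub {U : Finset Fc} {ω : Fc → Bool} {p : Pos} {j : ℕ} {z f : Fc}
    (h : f ∈ unx U ω p j z) : f ∈ U ∧ f ∉ Rev ω p j := by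
  have h1 := comp_sub _ _ h
  rw [Finset.mem_sdiff, mem_expl] at h1
  tauto

theorem unx_self {U : Finset Fc} {ω : Fc → Bool} {p : Pos} {j : ℕ} {z : Fc} (hz : z ∈ U)
    (h : z ∉ Rev ω p j) : z ∈ unx U ω p j z := by
  apply mem_comp_self
  rw [Finset.mem_sdiff, mem_expl]
  tauto

theorem unx_zero {U : Finset Fc} {ω : Fc → Bool} {p : Pos} {z : Fc} (hS : St U ω)
    (hp : IsTip U ω p) (hz : z ∈ U) : unx U ω p 0 z = U := by
  have h1 : U \ expl U ω p 0 = U := by
    ext f
    rw [Finset.mem_sdiff, mem_expl]
    constructor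
    · exact fun h => h.1
    · intro h
      refine ⟨h, ?_⟩
      rintro ⟨_, i, hi, h2⟩
      have : i = 0 := by omega
      subst this
      rw [orb_zero] at h2
      rcases h2 with h2 | h2
      · exact hp.2.1 (h2 ▸ h)
      · exact hp.2.2.1 (h2 ▸ h)
  unfold unx
  rw [h1]
  apply Finset.Subset.antisymm (comp_sub _ _)
  intro f hf
  exact mem_comp.2 ⟨hf, hS.dom.conn z hz f hf⟩

theorem tip_of_mem {U : Finset Fc} {ω : Fc → Bool} {p : Pos} {j : ℕ} {z : Fc}
    (hp : IsTip U ω p) (h : ph (orb ω p j) ∈ unx U ω p j z) :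
    IsTip (unx U ω p j z) ω (orb ω p j) := by
  refine ⟨h, fun h1 => (unx_sub h1).2 ⟨j, le_rfl, Or.inl rfl⟩,
    fun h1 => (unx_sub h1).2 ⟨j, le_rfl, Or.inr rfl⟩, ?_⟩
  exact hp.2.2.2.orb j

/-- the chain follows the interface -/
theorem chain_follow {U : Finset Fc} {ω : Fc → Bool} {p : Pos} (hS : St U ω) (hz : z ∈ U)
    (hp : IsTip U ω p) {i : ℕ} (hI : Ins U ω p i) (hzi : z ∉ Rev ω p i)
    (hns : ∀ i' < i, ∀ f', Ask U ω p i' f' → f' ∈ unx U ω p i' z → ¬ stop (unx U ω p i' z) ω) :
    ∀ j ≤ i, St (unx U ω p j z) ω ∧ ∃ m, (unx U ω p j z).card ≤ m ∧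
      R z stop G ω U.card U = R z stop G ω m (unx U ω p j z) := by
  intro j
  induction j with
  | zero =>
    intro _
    rw [unx_zero hS hp hz]
    exact ⟨hS, U.card, le_rfl, rfl⟩
  | succ j ih =>
    intro hj
    obtain ⟨h1, m, h2, h3⟩ := ih (by omega)
    have hzj : z ∈ unx U ω p j z := unx_self hz fun h => hzi (rev_mono (by omega) h)
    rw [unx_succ]
    by_cases hs : ph (orb ω p j) ∈ unx U ω p j z
    · have hT := tip_of_mem hp hs
      have hne : z ≠ ph (orb ω p j) := by
        intro h
        exact hzi (rev_mono hj ((rev_succ ω p j z).2 (Or.inr h)))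
      refine ⟨?_, ?_⟩
      · cases hc : ω (ph (orb ω p j))
        · exact peel _ _ h1 _ hs (pr (orb ω p j)) hT.2.2.1 (adj_hr _)
            (by rw [hc, hT.2.2.2.2]) z hzj hne
        · exact peel _ _ h1 _ hs (pl (orb ω p j)) hT.2.1 (adj_hl _)
            (by rw [hc, hT.2.2.2.1]) z hzj hne
      · have hA : Ask U ω p j (ph (orb ω p j)) :=
          ⟨ins_mono (by omega) hI, rfl, (unx_sub hs).1, (unx_sub hs).2⟩
        have hst := hns j (by omega) _ hA hs
        have hlt := comp_card_lt z hs
        cases m with
        | zero => omega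
        | succ m =>
          refine ⟨m, by omega, ?_⟩
          rw [h3, R_step z stop G (tipF_eq h1 hT) hst (Ne.symm hne)]
    · have e : comp (unx U ω p j z \ {ph (orb ω p j)}) z = unx U ω p j z := by
        rw [Finset.sdiff_singleton_eq_erase, Finset.erase_eq_of_notMem hs]
        exact comp_idem _ _
      rw [e]
      exact ⟨h1, m, h2, h3⟩

theorem St.congr_off {U : Finset Fc} {c c' : Fc → Bool} (hS : St U c)
    (h : ∀ f, f ∉ U → c f = c' f) : St U c' := by
  refine ⟨hS.dom, ?_, ?_⟩
  · have key : ∀ v, chg U c' v → chg U c v := by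
      rintro v ⟨k, h1, h2, h3, h4⟩
      exact ⟨k, h1, h2, h3, by rw [h _ h2, h _ h3]; exact h4⟩
    intro a b d ha hb hd
    exact hS.two a b d (key a ha) (key b hb) (key d hd)
  · intro f g hf hg tf tg hfg
    rw [← h f hf, ← h g hg] at hfg
    refine (hS.cc f g hf hg tf tg hfg).mono ?_
    rintro a ⟨h1, h2⟩
    exact ⟨h1, by rw [← h a h1, ← h f hf]; exact h2⟩

/-- **EVC** (the congruence hypothesis concerns the faces next to `U'`). -/
theorem evc (U : Finset Fc) (col : Fc → Bool) (z : Fc) (p : Pos) (hS : St U col) (hz : z ∈ U)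
    (hp : IsTip U col p) (stop : Finset Fc → (Fc → Bool) → Prop)
    (Gf : Finset Fc → (Fc → Bool) → ℝ) (hG : ∀ U' c, 0 ≤ Gf U' c)
    (hc : ∀ (U' : Finset Fc) (c c' : Fc → Bool), (∀ f, f ∉ U' → tch ↑U' f → c f = c' f) →
      ((stop U' c ↔ stop U' c') ∧ Gf U' c = Gf U' c'))
    (X : Finset Fc → ℝ) (hX : ∀ w ⊆ U, X w ≤ 0 ∨ ∃ i f, Ask U (mixc U w col) p i f ∧
      z ∉ Rev (mixc U w col) p i ∧ f ∈ unx U (mixc U w col) p i z ∧
      stop (unx U (mixc U w col) p i z) (mixc U w col) ∧
      (∀ i' < i, ∀ f', Ask U (mixc U w col) p i' f' → f' ∈ unx U (mixc U w col) p i' z →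
        ¬ stop (unx U (mixc U w col) p i' z) (mixc U w col)) ∧
      X w ≤ Gf (unx U (mixc U w col) p i z) (mixc U w col)) :
    (∑ w ∈ U.powerset, X w) / 2 ^ U.card ≤
      EV z (fun U' c _ => stop U' c) (fun U' c _ => Gf U' c) U.card U col [] := by
  rw [EV_eq_av (z := z) (stop := stop) (G := Gf) hc]
  unfold av
  refine div_le_div_of_nonneg_right ?_ (by positivity)
  refine Finset.sum_le_sum fun w hw => ?_
  rcases hX w (Finset.mem_powerset.1 hw) with h | ⟨i, f, hA, hzi, hf, hst, hns, hX⟩
  · exact h.trans (R_nonneg z stop Gf hG _ _ _)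
  · have hS' : St U (mixc U w col) := St.congr_off hS fun f hf => (mixc_off hf).symm
    have hp' : IsTip U (mixc U w col) p := (agr_mixc U w col).symm.tip hp
    obtain ⟨-, m, -, h3⟩ := chain_follow (z := z) (stop := stop) (G := Gf) hS' hz hp' hA.1 hzi
      hns i le_rfl
    rw [h3, R_stop z stop Gf hst]
    exact hX

end Pool.Agent.H12.Inst
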